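import Pool.Agent.Helper58.PB.StS

set_option autoImplicit false

namespace Pool.Agent.Helper85.PB

open Finset ArithmeticFunction
open Pool.Agent.Helper58.PB
open Pool.Agent.Helper48.BK (ex th Sx Apx rr win AdN Admissible Solv Cl thd nd)
open Pool.Agent.Helper23.GK (cR)
open Pool.Agent.Helper23.MV (PCh PS ZF ZS mwt OKb ta Sc mm)

private lemma ps_FAR {P : ℝ} {c : PCh} (hc : c ∈ PS P) : (c.r : ℝ) ≤ P := by
  unfold PS at hc
  split_ifs at hc with h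
  · simpa using hc
  · simp at hc

private lemma pw_FAR {P X : ℝ} (hP : 1 ≤ P) (hX : 0 ≤ X) (h : P ≤ X ^ (1 / 5000 : ℝ)) (n : ℕ)
    (hn : n ≤ 5000) : P ^ n ≤ X ^ ((n : ℝ) / 5000) := by
  have h0 : P ^ n ≤ (X ^ (1 / 5000 : ℝ)) ^ n := pow_le_pow_left₀ (by linarith) h n
  refine h0.trans (le_of_eq ?_)
  rw [← Real.rpow_natCast, ← Real.rpow_mul hX]
  congr 1
  ring

private lemma one_FAR {P X : ℝ} (hP : 2 ≤ P) (hX : 0 ≤ X) (h : P ≤ X ^ (1 / 5000 : ℝ)) : 1 ≤ X := by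
  by_contra hlt
  push Not at hlt
  have : X ^ (1 / 5000 : ℝ) ≤ 1 := Real.rpow_le_one hX hlt.le (by norm_num)
  linarith

theorem hFar : StVgn → StGau → StFar := by
  rintro ⟨C, X0, hC, hX0, hV⟩ hG
  refine ⟨max 2 (max (C ^ 3) X0), le_max_left _ _, ?_⟩
  intro P X y β hP hPX hlog hy hβ1 hβ2
  have hP2 : 2 ≤ P := le_trans (le_max_left _ _) hP
  have hPC : C ^ 3 ≤ P := le_trans (le_trans (le_max_left _ _) (le_max_right _ _)) hP
  have hPX0 : X0 ≤ P := le_trans (le_trans (le_max_right _ _) (le_max_right _ _)) hP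
  have hP0 : 0 < P := by linarith
  have hP1 : 1 ≤ P := by linarith
  have hXn : (0 : ℝ) ≤ (X : ℝ) := Nat.cast_nonneg X
  have hX1 : (1 : ℝ) ≤ (X : ℝ) := one_FAR hP2 hXn hPX
  have hXp : (0 : ℝ) < (X : ℝ) := by linarith
  -- P ^ 30 ≤ X
  have h30 : P ^ 30 ≤ (X : ℝ) := by
    have h := pw_FAR hP1 hXn hPX 30 (by norm_num)
    refine h.trans ?_
    calc (X : ℝ) ^ (((30 : ℕ) : ℝ) / 5000) ≤ (X : ℝ) ^ (1 : ℝ) :=
          Real.rpow_le_rpow_of_exponent_le hX1 (by norm_num)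
      _ = X := Real.rpow_one _
  have h10 : P ^ 10 ≤ (X : ℝ) ^ (1 / 10 : ℝ) := by
    have h := pw_FAR hP1 hXn hPX 10 (by norm_num)
    refine h.trans (Real.rpow_le_rpow_of_exponent_le hX1 (by norm_num))
  have hPX1 : P ≤ (X : ℝ) := by
    calc P = P ^ 1 := (pow_one P).symm
      _ ≤ P ^ 30 := pow_le_pow_right₀ hP1 (by norm_num)
      _ ≤ X := h30
  have hXX0 : X0 ≤ (X : ℝ) := hPX0.trans hPX1
  have hlog0 : 0 ≤ Real.log X := Real.log_nonneg hX1
  have hlog6 : Real.log X ^ 6 ≤ P ^ (6 / 100 : ℝ) := by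
    calc Real.log X ^ 6 ≤ (P ^ (1 / 100 : ℝ)) ^ 6 := pow_le_pow_left₀ hlog0 hlog 6
      _ = P ^ (6 / 100 : ℝ) := by
        rw [← Real.rpow_natCast, ← Real.rpow_mul hP0.le]
        congr 1
        norm_num
  have hCP : C ≤ P ^ (44 / 100 : ℝ) := by
    have hC0 : 0 ≤ C := by linarith
    calc C = (C ^ 3) ^ (1 / 3 : ℝ) := by
          rw [← Real.rpow_natCast, ← Real.rpow_mul hC0]
          norm_num
      _ ≤ P ^ (1 / 3 : ℝ) := Real.rpow_le_rpow (by positivity) hPC (by norm_num)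
      _ ≤ P ^ (44 / 100 : ℝ) := Real.rpow_le_rpow_of_exponent_le hP1 (by norm_num)
  have key : C * X * (P ^ 9) ^ (-(1 / 2) : ℝ) * Real.log X ^ 6 ≤ X * P ^ (-4 : ℝ) := by
    have e1 : (P ^ 9) ^ (-(1 / 2) : ℝ) = P ^ (-(9 / 2) : ℝ) := by
      rw [← Real.rpow_natCast, ← Real.rpow_mul hP0.le]
      congr 1
      norm_num
    rw [e1]
    have hpp : 0 < P ^ (-(9 / 2) : ℝ) := Real.rpow_pos_of_pos hP0 _
    calc C * X * P ^ (-(9 / 2) : ℝ) * Real.log X ^ 6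
        ≤ P ^ (44 / 100 : ℝ) * X * P ^ (-(9 / 2) : ℝ) * P ^ (6 / 100 : ℝ) := by
          gcongr
      _ = X * (P ^ (44 / 100 : ℝ) * P ^ (-(9 / 2) : ℝ) * P ^ (6 / 100 : ℝ)) := by ring
      _ = X * P ^ (-4 : ℝ) := by
          rw [← Real.rpow_add hP0, ← Real.rpow_add hP0]
          congr 2
          norm_num
  have hmain : ∀ (q₀ a₀ : ℕ), 1 ≤ q₀ → (q₀ : ℝ) ≤ P →
      ‖Sx th y ((a₀ : ℝ) / q₀ + β)‖ ≤ X * P ^ (-4 : ℝ) := by
    intro q₀ a₀ hq₀ hq₀P
    refine (hV X y (P ^ 9) (P ^ 10) _ hXX0 hy (one_le_pow₀ hP1)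
      (pow_le_pow_right₀ hP1 (by norm_num)) h10 ?_).trans key
    intro q a hq hqT
    have hq1 : (1 : ℝ) ≤ (q : ℝ) := by exact_mod_cast hq
    have hq₀1 : (1 : ℝ) ≤ (q₀ : ℝ) := by exact_mod_cast hq₀
    have hqp : (0 : ℝ) < (q : ℝ) := by linarith
    have hq₀p : (0 : ℝ) < (q₀ : ℝ) := by linarith
    have hle : P ^ 10 / ((q : ℝ) * X) ≤ P ^ 10 / X := by
      apply div_le_div_of_nonneg_left (by positivity) hXp
      nlinarith
    by_cases hcase : (a : ℝ) / q = (a₀ : ℝ) / q₀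
    · have e : ((a₀ : ℝ) / q₀ + β) - (a : ℝ) / q = β := by rw [hcase]; ring
      rw [e]
      refine lt_of_le_of_lt (hle.trans ?_) hβ1
      apply div_le_div_of_nonneg_right _ hXp.le
      exact pow_le_pow_right₀ hP1 (by norm_num)
    · have hne : (a₀ : ℤ) * q - a * q₀ ≠ 0 := by
        intro h0
        apply hcase
        have h1 : (a₀ : ℝ) * q - a * q₀ = 0 := by exact_mod_cast h0
        field_simp
        linarith
      have h1 : (1 : ℝ) ≤ |(a₀ : ℝ) * q - a * q₀| := by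
        have h2 : (1 : ℤ) ≤ |(a₀ : ℤ) * q - a * q₀| := Int.one_le_abs hne
        have h3 : ((1 : ℤ) : ℝ) ≤ ((|(a₀ : ℤ) * q - a * q₀| : ℤ) : ℝ) := by exact_mod_cast h2
        push_cast at h3
        exact h3
      have h2 : |(a₀ : ℝ) / q₀ - (a : ℝ) / q| = |(a₀ : ℝ) * q - a * q₀| / (q₀ * q) := by
        rw [div_sub_div _ _ hq₀p.ne' hqp.ne', abs_div, abs_of_pos (mul_pos hq₀p hqp)]
        congr 2
        ring
      have h3 : 1 / P ^ 10 ≤ |(a₀ : ℝ) / q₀ - (a : ℝ) / q| := by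
        rw [h2]
        apply div_le_div₀ (by positivity) h1 (by positivity)
        calc (q₀ : ℝ) * q ≤ P * P ^ 9 := by gcongr
          _ = P ^ 10 := by ring
      have h4 : |(a₀ : ℝ) / q₀ - (a : ℝ) / q| - |β| ≤ |((a₀ : ℝ) / q₀ + β) - (a : ℝ) / q| := by
        have h5 : |(a₀ : ℝ) / q₀ - (a : ℝ) / q| ≤
            |((a₀ : ℝ) / q₀ + β) - (a : ℝ) / q| + |β| := by
          have e : (a₀ : ℝ) / q₀ - (a : ℝ) / q = (((a₀ : ℝ) / q₀ + β) - (a : ℝ) / q) + (-β) := by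
            ring
          rw [e]
          refine (abs_add_le _ _).trans ?_
          rw [abs_neg]
        linarith
      have h5 : |β| ≤ 1 / P ^ 20 := by
        refine hβ2.trans ?_
        rw [one_div, ← Real.rpow_natCast, ← Real.rpow_neg hP0.le]
        exact Real.rpow_le_rpow_of_exponent_le hP1 (by norm_num)
      have h6 : P ^ 10 / X ≤ 1 / P ^ 20 := by
        rw [div_le_div_iff₀ hXp (by positivity)]
        calc P ^ 10 * P ^ 20 = P ^ 30 := by ring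
          _ ≤ (X : ℝ) := h30
          _ = 1 * (X : ℝ) := by ring
      have h7 : 2 * (1 / P ^ 20) < 1 / P ^ 10 := by
        have hP10 : (2 : ℝ) ^ 10 ≤ P ^ 10 := pow_le_pow_left₀ (by norm_num) hP2 10
        rw [mul_one_div, div_lt_div_iff₀ (by positivity) (by positivity)]
        have e20 : P ^ 20 = P ^ 10 * P ^ 10 := by ring
        rw [e20]
        nlinarith [hP10, pow_pos hP0 10]
      linarith
  refine ⟨hmain, ?_⟩
  intro c hc
  have hcr : (c.r : ℝ) ≤ P := ps_FAR hc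
  have hcr1 : 1 ≤ c.r := Nat.one_le_iff_ne_zero.mpr c.hr
  have hg := hG c (fun n => ((th n : ℝ) : ℂ)) y β (X * P ^ (-4 : ℝ)) (fun b _ => by
    have := hmain c.r b hcr1 hcr
    unfold Sx at this
    exact_mod_cast this)
  unfold Tc
  refine hg.trans ?_
  have hs : √(c.r : ℝ) ≤ P ^ (1 / 2 : ℝ) := by
    rw [Real.sqrt_eq_rpow]
    exact Real.rpow_le_rpow (Nat.cast_nonneg _) hcr (by norm_num)
  calc √(c.r : ℝ) * (X * P ^ (-4 : ℝ)) ≤ P ^ (1 / 2 : ℝ) * (X * P ^ (-4 : ℝ)) := by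
        apply mul_le_mul_of_nonneg_right hs
        positivity
    _ = X * (P ^ (1 / 2 : ℝ) * P ^ (-4 : ℝ)) := by ring
    _ = X * P ^ (-(7 / 2) : ℝ) := by
        rw [← Real.rpow_add hP0]
        congr 2
        norm_num

end Pool.Agent.Helper85.PB
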